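import Pool.Agent.X302.MW.Cal2

/-!
# MP_6451f1_ag: the `p`-adic monodromy-weight conjecture for Calabi-Yau threefolds with completely
degenerate holomorphic forms
-/

set_option autoImplicit false

open Module

universe u v

namespace Pool.Agent.Results.MP_6451f1_ag.CalabiYauThreefolds

open Pool.Agent.Y143 Pool.Agent.X302.MW

/-- **The `p`-adic monodromy-weight conjecture for threefolds with `h^{0,3} = h ≥ 1` whose forms of
degree three degenerate completely: reduction to the slope one part.** Let `X_K` be a smooth
projective threefold over `K` (no condition on `H^2`) with `h = dim H^3(X_K, O) ≥ 1` (for example a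
Calabi-Yau threefold, `h = 1`), which has a projective strictly semistable model over the ring of
integers, with residue field with `q` elements, and let `Y^(m)` be the strata of the special fibre.
The `p`-adic theory `X` consists of the log crystalline (Hyodo-Kato) cohomology with its monodromy
operator `N` and the linear Frobenius (a power of `φ`), the crystalline cohomology of the strata,
and the weight spectral sequence of Mokrane, with coefficients in an algebraically closed field `Ω`
containing the field `P_0`, with valuation ring `R`; `A` are the classes of divisors on the strata,
and `Γ` is a commutative family of operators, containing the Frobenius. The hypotheses are: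

* `hI` (known, Katz-Messing): the Frobenius eigenvalues on the strata are algebraic integers;
* `hN`: on a subspace `U` of the Hyodo-Kato cohomology `H^3` stable under the Frobenius, the sum of
  the slopes is at least `dim U - h`; this holds because the Newton polygon lies above the Hodge
  polygon (weak admissibility);
* `hW`: the graded pieces of the weight filtration on `H^3` satisfy
  `dim gr_0 + (dim gr_1) / 2 ≥ h`; for a Calabi-Yau threefold, this means that one of the two is not
  zero;
* `hS`: the characters `χ` of `Γ` for which `χ(frob)` has slope exactly one are controlled: the
  primitive part of `H^2(Y^(2))` of character `χ` has dimension at most one, or is contained in the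
  image of `d_1` or meets it in zero, or the same part for the dual character is contained in the
  image of `d_1`, or `χ` does not occur in `H^2(Y^(1))`, or the classes of character `χ` in
  `H^2(Y^(1))` are algebraic.

Then `H^k_pst` is mw pure of weight `k`, for all `k`. The case `h = 0` is the hand-in `SlopesOfH3`. -/
theorem result {Ω : Type u} [Field Ω] [CharZero Ω] [IsAlgClosed Ω] {Γ : Type} {q : ℕ}
    (X : Degeneration.{u, v} Ω Γ 3 q) (A : DivisorClasses X.toSpecialFibre)
    (hI : HasIntegralFrobenius X.toSpecialFibre)
    (R : ValuationSubring Ω) (h : ℕ) (_hh : 1 ≤ h)
    (hN : NewtonBound X.toSemistableModel 3 h R)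
    (hW : IsCompletelyDegenerate X.toSemistableModel 3 h)
    (hS : ∀ χ : Γ → Ω, χ X.frob / q ∈ R → q / χ X.frob ∈ R → ControlledAt A 0 2 χ) (k : ℕ) :
    IsMWPure q k (X.actV k X.frob) (X.N k) :=
  mw_cal_slopes X hI A R hN hW hS k

end Pool.Agent.Results.MP_6451f1_ag.CalabiYauThreefolds
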