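import Pool.Agent.X302.MW.Cal3

/-!
# MP_6451f1_ag: the `p`-adic monodromy-weight conjecture for threefolds with completely degenerate
holomorphic forms
-/

set_option autoImplicit false

open Module

universe u v

namespace Pool.Agent.Results.MP_6451f1_ag.DegenerateForms

open Pool.Agent.Y143 Pool.Agent.X302.MW

/-- **The `p`-adic monodromy-weight conjecture for threefolds with `h^{0,3} = h ≥ 1` whose forms of
degree two and three degenerate completely.** Let `X_K` be a smooth projective threefold over `K`
with `h = dim H^3(X_K, O) ≥ 1` (for example a Calabi-Yau threefold, `h = 1`), which has a projective
strictly semistable model over the ring of integers, with residue field with `q` elements. Suppose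
that the irreducible components of the special fibre satisfy the Tate conjecture for divisors.

Here `X` is the `p`-adic theory: log crystalline (Hyodo-Kato) cohomology with its monodromy operator
`N` and the linear Frobenius (a power of `φ`), crystalline cohomology of the strata of the special
fibre, and the weight spectral sequence of Mokrane, with coefficients in an algebraically closed
field `Ω` containing the field `P_0`; and `R` is the valuation ring of `Ω`; `A` are the classes of
divisors on the strata. The hypotheses are the following.

* `hC` (known, Katz-Messing): the Frobenius eigenvalues on the strata are algebraic integers, and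
  the characteristic polynomials of the Frobenius on `H^2(Y^(1))` and on `H^2(Y^(2))` have rational
  coefficients, that is, conjugate eigenvalues have the same multiplicity.
* `h2`: the Frobenius eigenvalues on the graded piece of weight two of the Hyodo-Kato cohomology
  `H^2` are products of `q` and roots of unity; this is the case if `H^2(X_K, O) = 0`, and more
  generally if the forms of degree two degenerate completely.
* `hN`: on a subspace `U` of the Hyodo-Kato cohomology `H^3` stable under the Frobenius, the sum of
  the slopes is at least `dim U - h`; this holds because the Newton polygon lies above the Hodge
  polygon (weak admissibility).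
* `hW`: the graded pieces of the weight filtration on `H^3` satisfy
  `dim gr_0 + (dim gr_1) / 2 ≥ h`; for a Calabi-Yau threefold, this means that one of the two is not
  zero.
* `hT`: the Tate conjecture for divisors on the components.

Then `H^k_pst` is mw pure of weight `k`, for all `k`. -/
theorem result {Ω : Type u} [Field Ω] [CharZero Ω] [IsAlgClosed Ω] {Γ : Type} {q : ℕ}
    (hq : IsPrimePow q)
    (X : Degeneration.{u, v} Ω Γ 3 q) (A : DivisorClasses X.toSpecialFibre)
    (hC : AreComparable X.toSpecialFibre X.toSpecialFibre)
    (R : ValuationSubring Ω) (hR : ((q : Ω))⁻¹ ∉ R)
    (h2 : GradedTate X.toSemistableModel 2 2)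
    (h : ℕ) (_hh : 1 ≤ h) (hN : NewtonBound X.toSemistableModel 3 h R)
    (hW : IsCompletelyDegenerate X.toSemistableModel 3 h)
    (hT : A.TateConj 0) (k : ℕ) :
    IsMWPure q k (X.actV k X.frob) (X.N k) :=
  mw_deg hq X A X.toSemistableModel A hC R hR h2 hN hW hT k

end Pool.Agent.Results.MP_6451f1_ag.DegenerateForms
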