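import Pool.Agent.X302.MW.Padic

/-!
# MP_6451f1_ag: the `p`-adic monodromy-weight conjecture for threefolds with all slopes of `H^3` at
least one
-/

set_option autoImplicit false

open Module

universe u v

namespace Pool.Agent.Results.MP_6451f1_ag.SlopesOfH3

open Pool.Agent.Y143 Pool.Agent.X302.MW

/-- **The `p`-adic monodromy-weight conjecture for threefolds with `H^3(X_K, O) = 0`: reduction to
the slope one part.** Let `X_K` be a smooth projective threefold over `K` which has a projective
strictly semistable model over the ring of integers, with residue field with `q` elements, and let
`Y^(m)` be the strata of the special fibre. The `p`-adic theory `X` consists of the log crystalline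
(Hyodo-Kato) cohomology with its monodromy operator `N` and the linear Frobenius (a power of `φ`),
the crystalline cohomology of the strata, and the weight spectral sequence of Mokrane, with
coefficients in an algebraically closed field `Ω` containing the field `P_0`, with valuation ring
`R`, and `Γ` is a commutative family of operators, containing the Frobenius.

Suppose that the Frobenius eigenvalues on the Hyodo-Kato cohomology `H^3` have slope at least one
(`h3`); this is the case if `H^3(X_K, O) = 0`. Suppose that the characters `χ` of `Γ` for which
`χ(frob)` has slope exactly one are controlled (`hS`): the primitive part of `H^2(Y^(2))` of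
character `χ` has dimension at most one, or is contained in the image of `d_1` or meets it in zero,
or the same part for the dual character is contained in the image of `d_1`, or `χ` does not occur
in `H^2(Y^(1))`, or the classes of character `χ` in `H^2(Y^(1))` are algebraic. Then `H^k_pst` is
mw pure of weight `k`, for all `k`.

There is no hypothesis on the part of slope different from one, which is the main part of `H^2` of
the double surfaces if they are ordinary and far from being supersingular, and no hypothesis on
`H^2` of the generic fibre. For example, `hS` holds if the eigenvalues of slope one on the primitive
part of `H^2(Y^(2))` which are not products of `q` and roots of unity are simple, and the components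
satisfy the Tate conjecture for divisors. -/
theorem result {Ω : Type u} [Field Ω] [CharZero Ω] [IsAlgClosed Ω] {Γ : Type} {q : ℕ}
    (X : Degeneration.{u, v} Ω Γ 3 q) (A : DivisorClasses X.toSpecialFibre)
    (hI : HasIntegralFrobenius X.toSpecialFibre)
    (R : ValuationSubring Ω)
    (h3 : ∀ α, IsEigenvalueOn X.toSemistableModel 3 α → α / q ∈ R)
    (hS : ∀ χ : Γ → Ω, χ X.frob / q ∈ R → q / χ X.frob ∈ R → ControlledAt A 0 2 χ) (k : ℕ) :
    IsMWPure q k (X.actV k X.frob) (X.N k) :=
  mw_slopes X rfl hI A R h3 hS k

end Pool.Agent.Results.MP_6451f1_ag.SlopesOfH3
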