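import Pool.Agent.X302.MW.Three

/-!
# MP_6451f1_ag: the `p`-adic monodromy-weight conjecture for threefolds without differential forms
of degree two and three
-/

set_option autoImplicit false

open Module

universe u v

namespace Pool.Agent.Results.MP_6451f1_ag.ThreefoldsWithoutForms

open Pool.Agent.Y143 Pool.Agent.X302.MW

/-- **The `p`-adic monodromy-weight conjecture for threefolds without differential forms of degree
two and three.** Let `X_K` be a smooth projective threefold over `K` with
`H^2(X_K, O) = H^3(X_K, O) = 0`, which has a projective strictly semistable model over the ring of
integers, with residue field with `q` elements. Suppose that the irreducible components of the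
special fibre satisfy the Tate conjecture for divisors. Then `H^k_pst` is mw pure of weight `k`,
for all `k`.

Here `X` is the `p`-adic theory: log crystalline (Hyodo-Kato) cohomology with its monodromy operator
`N` and the linear Frobenius (a power of `φ`), crystalline cohomology of the strata of the special
fibre, and the weight spectral sequence of Mokrane, with coefficients in an algebraically closed
field `Ω` containing the field `P_0`; and `R` is the valuation ring of `Ω`. (For a strictly
semistable model the inertia group acts trivially on `H^k_pst`, hence the element `g` of the Weil
group acts as the power of the linear Frobenius determined by `v(g)`.) The hypotheses are the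
following.

* `hI`, `hC0`, `hC1` (known, Katz-Messing): the Frobenius eigenvalues on the strata are algebraic
  integers, and the characteristic polynomials of the Frobenius on `H^2(Y^(1))` and on `H^2(Y^(2))`
  have rational coefficients, that is, conjugate eigenvalues have the same multiplicity.
* `h2`: the Frobenius eigenvalues on the Hyodo-Kato cohomology `H^2` are products of `q` and roots
  of unity; this is the case if `H^2(X_K, O) = 0`, because then `H^2` is spanned by classes of
  divisors.
* `h3`: the Frobenius eigenvalues on the Hyodo-Kato cohomology `H^3` have slope at least one; this
  is the case if `H^3(X_K, O) = 0`, because the Newton polygon lies above the Hodge polygon.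
* `hT`: the Tate conjecture for divisors on the components. -/
theorem result {Ω : Type u} [Field Ω] [CharZero Ω] [IsAlgClosed Ω] {Γ : Type} {q : ℕ}
    (hq : IsPrimePow q)
    (X : Degeneration.{u, v} Ω Γ 3 q) (A : DivisorClasses X.toSpecialFibre)
    (hI : HasIntegralFrobenius X.toSpecialFibre)
    (hC0 : SameFrobenius X.toSpecialFibre X.toSpecialFibre 0 2)
    (hC1 : SameFrobenius X.toSpecialFibre X.toSpecialFibre 1 2)
    (R : ValuationSubring Ω) (hR : ((q : Ω))⁻¹ ∉ R)
    (h2 : ∀ α, IsEigenvalueOn X.toSemistableModel 2 α → IsTateNumber q α)
    (h3 : ∀ α, IsEigenvalueOn X.toSemistableModel 3 α → α / q ∈ R)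
    (hT : A.TateConj 0) (k : ℕ) :
    IsMWPure q k (X.actV k X.frob) (X.N k) :=
  mw_three X rfl hI A hT (fun α hα z hz => surj_of_compare X.toSemistableModel X.toSemistableModel
    rfl hq hI hI hC0 hC1 R hR h2 h3 α hα z hz) k

end Pool.Agent.Results.MP_6451f1_ag.ThreefoldsWithoutForms
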